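import Pool.Agent.N145.SX.MOne
import Pool.Agent.N145.SX.MFin

/-!
# Logarithmic Kodaira dimension of the open varieties dominated by a product of open varieties and an
# open curve: `-∞`, or at least the dimension minus one

Let `X° i`, `i < k`, be smooth varieties over `ℂ` of dimension `m i`, and `U = C ∖ B` a smooth curve,
open or projective and of any genus (`B` is finite and may be empty). Let
`V° = X° 0 × ... × X° (k - 1) × U ⇢ W°` be a dominant rational map of finite degree to a variety `W°`
which is proper in the sense that a prime divisor over `V°` (on any compactification of any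
birational model) has a centre on `V°` if and only if its image has a centre on `W°`; for example any
finite morphism onto a normal variety `W°`. The map need not be related to the product structure, and
it need not be the quotient by a group. Let `W_i` be the image of `V` in `W × X 0 × ... × X (i - 1)`,
and let `d i` be the degree over `W_i` of the image of `V` in `W_i × X i`; for example `W_0 = W`, and
`d 0` is the number of different points of `X 0` below a general fibre of `V° ⇢ W°`. The product of
the `d i` is at most the degree of `V° ⇢ W°`.

**Theorem.** Suppose that for all `i` the logarithmic canonical forms of `X° i` separate any `2 d i`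
different points of a nonempty open subset of `X° i`: such points impose independent conditions on
`H⁰(K + D)` of a smooth compactification with the boundary `D`. Then the following are equivalent:

* `log κ(W°) ≥ 0`;
* `log κ(W°) ≥ dim W° - 1`;
* the log canonical divisor of a smooth compactification of a resolution of `W°` is
  pseudo-effective;
* `W°` has a nonzero logarithmic canonical form;
* `W°` is not `A¹`-uniruled.

So Q1 holds for `W°`, and the logarithmic Kodaira dimension of `W°` is `-∞`, `dim W° - 1` or `dim W°`.

Examples for `X° i`:

* the complement of a divisor with normal crossings of degree `e` in a smooth hypersurface of degree `c`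
  in projective space, `c + e ≥ m i + 1 + 2 d i` (also `c = 1` or `e = 0`);
* a curve of logarithmic gonality greater than `2 d i`.

For `k = 1`, `U = ℂ` the values `-∞` and `dim W° - 1` of the logarithmic Kodaira dimension are taken:
the product of `X°` and the affine line is `A¹`-uniruled, and for the product of `X°` and `ℂ ∖ {0}` it
is `dim X°` if `X°` is of log general type. There is no condition on the fundamental group or the
irregularity; `X° i` and `W°` may be simply connected.

Relations: `MP_66b48b_ag.OpenProductsGenusZero` has the equivalence of the first and the last three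
conditions if only `d i` points are separated; new is the lower bound `dim W° - 1` for the
logarithmic Kodaira dimension. `MP_97d78d_ag.ProductsOfVarieties` is the projective case. The hand-ins
`OpenProductImages` (products of open curves, with another numerical condition) and
`OpenSubsetsTimesCurves` (open subsets of complete intersections, times a curve) of this problem have
no bound for `log κ(W°)` if it is not `-∞`.

Proof. Let `f i` be logarithmic canonical forms of the `X° i` and `φ` a differential on `C` with at
most simple poles on `B`. The product of their pullbacks is a logarithmic canonical form of `V°`, and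
its trace on `W°` is a logarithmic canonical form. Suppose that two generic points `P`, `Q` of `W°` have
the same image under the logarithmic canonical map. This is a relation between the points of `V`
below `P` and `Q` which is multilinear in the values of the `f i` and `φ`. At most `2 d i` points of
`X i` occur if the first `i` coordinates are fixed, and they are separated, so one can fix the
coordinates one after the other. It follows that all `φ` have trace zero on the image `R_x` of
`{x} × U` in `W × X 0 × ... × X (k - 1)`, for generic `x`, or that the same points `x` are below `P` and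
`Q`. In the second case the fibres of the logarithmic canonical map have dimension at most one. In the
first case `R_x` is rational, and has at most one point below the boundary, so that `W°` is
`A¹`-uniruled, and its log canonical divisor is not pseudo-effective.

The theorem is in the library of the starting files (`Pool.Agent.N145.SX.multi_log`,
`Pool.Agent.N145.SX.multi_zero`; helper145 and helpers 123, 221, 442, 160, 279, 603, 342, 75 and 78);
assembled here by helper464.
-/

set_option autoImplicit false
set_option linter.overlappingInstances false
set_option maxHeartbeats 4000000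
set_option synthInstance.maxHeartbeats 400000

open FF Module Pool.Agent Pool.Agent.W602.GT
open Pool.Agent.W619.PL (IsA1Uniruled)

namespace Pool.Agent.Results.MP_410da7_ag.OpenProductsTimesCurve

/-- **The logarithmic canonical forms separate `r` points.** `E` is the function field of a
variety `X°` of dimension `m`, `BX` is the set of places of `E` without centre on `X°`, and `D` is a
rational frame of the tangent bundle. The embeddings `σ : E → Ω` are the generic points of `X` with
coordinates in the field `Ω`. At most `r` different such points impose independent conditions on the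
logarithmic canonical forms `ω` (`LogSec` with exponent one): if `∑ c σ * σ (ω D) = 0` for all `ω`
then all the coefficients `c σ` are zero. -/
def SeparatesPoints (E : Type) [Field E] [Algebra ℂ E] (m : ℕ) (BX : Place ℂ E → Prop) (r : ℕ) :
    Prop :=
  ∀ D : Fin m → Derivation ℂ E E, LinearIndependent E D →
    ∀ (Ω : Type) [Field Ω] [Algebra ℂ Ω] [IsAlgClosed Ω] (A : Finset (E →ₐ[ℂ] Ω)), A.card ≤ r →
    ∀ c : (E →ₐ[ℂ] Ω) → Ω,
    (∀ ω : (Fin m → Derivation ℂ E E) → E, LogSec ℂ E m 1 BX ω →
      ∑ σ ∈ A, c σ * σ (ω D) = 0) → ∀ σ ∈ A, c σ = 0

variable {K : Type} [Field K] [Algebra ℂ K] {k : ℕ}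

/-- The function field of the image `W_i` of `V` in the product of `W` and the first `i` factors.
Here `K` and `L` are the function fields of `V` and `W`, and `F l` is the one of the `l`-th
factor. -/
noncomputable def Img (F : Fin (k + 1) → IntermediateField ℂ K) (L : Type) [Field L] [Algebra L K]
    (i : ℕ) : IntermediateField L K :=
  IntermediateField.adjoin L {z | ∃ l : Fin (k + 1), l.val < i ∧ z ∈ F l}

/-- The degree over `W_i` of the image of `V` in the product of `W_i` and the `i`-th factor. -/
noncomputable def deg (F : Fin (k + 1) → IntermediateField ℂ K) (L : Type) [Field L] [Algebra L K]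
    (i : Fin (k + 1)) : ℕ :=
  finrank (Img F L i) (IntermediateField.adjoin (Img F L i) (F i : Set K))

theorem deg_eq (F : Fin (k + 1) → IntermediateField ℂ K) (L : Type) [Field L] [Algebra ℂ L]
    [Algebra L K] [IsScalarTower ℂ L K] [FiniteDimensional L K] (i : Fin (k + 1)) :
    deg F L i = finrank (N145.PC.MF F L (N145.PC.Js (k + 1) i))
      (IntermediateField.adjoin (N145.PC.MF F L (N145.PC.Js (k + 1) i)) (F i : Set K)) := by
  unfold deg Img
  rw [N145.SX.mf_eq]

/-- The place `Q` of the function field `K` of the product lies over a place of `F i`, `i < k`,
without centre on `X° i`, or over a point in `B`: it has no centre on the product of the `X° i` and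
`U`. -/
def Boundary {F : Fin (k + 1) → IntermediateField ℂ K}
    (BX : ∀ i : Fin k, Place ℂ (F i.castSucc) → Prop) (B : Set (Place ℂ (F (Fin.last k))))
    (Q : Place ℂ K) : Prop :=
  (∃ (i : Fin k) (P : Place ℂ (F i.castSucc)) (e : ℕ), BX i P ∧ 0 < e ∧
    ∀ f : F i.castSucc, Q.ord (f : K) = e * P.ord f) ∨
  ∃ p ∈ B, ∃ e : ℕ, 0 < e ∧ ∀ f : F (Fin.last k), Q.ord (f : K) = e * p.ord f

/-- The set `BW` of places of the function field `L` of `W` is the boundary of the image of the
product: for all places `Q` of `K` over a place `P` of `L`, `P` is in `BW` if and only if `Q` has no
centre on the product of the `X° i` and `U`. -/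
def IsImageBoundary {F : Fin (k + 1) → IntermediateField ℂ K}
    (BX : ∀ i : Fin k, Place ℂ (F i.castSucc) → Prop) (B : Set (Place ℂ (F (Fin.last k))))
    (L : Type) [Field L] [Algebra ℂ L] [Algebra L K] (BW : Place ℂ L → Prop) : Prop :=
  ∀ (P : Place ℂ L) (Q : Place ℂ K) (e : ℕ), 0 < e →
    (∀ f : L, Q.ord (algebraMap L K f) = e * P.ord f) → (BW P ↔ Boundary BX B Q)

/-- The logarithmic geometric genus of the open variety `W°` with the function field `L` and the
boundary `BW` is zero: the only logarithmic canonical form is `0`. -/
def LogGenusZero (L : Type) [Field L] [Algebra ℂ L] (n : ℕ) (BW : Place ℂ L → Prop) : Prop :=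
  ∀ ω : (Fin n → Derivation ℂ L L) → L, LogSec ℂ L n 1 BW ω → ∀ D, ω D = 0

/-- **The logarithmic Kodaira dimension of the open varieties dominated by a product of open varieties
and an open curve.** Let `K` be the function field of the product `V` of the varieties `X i` with the
function fields `F i`, `i < k`, of dimension `m i`, and of the curve with the function field `F k`, i.e.
`K` is the compositum and its transcendence degree is `∑ m i + 1`. Let `X° i` be open varieties with
the boundaries `BX i` (the places of `F i` without centre on `X° i`), and let `B` be a finite set of
points of the curve. Let `L ⊆ K` be the function field of a variety `W` such that the extension is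
finite, and let `W°` be an open variety with function field `L` and boundary `BW` which is the image of
the product of the `X° i` and the open curve under a proper map. Suppose that for all `i < k` the
logarithmic canonical forms of `X° i` separate `2 d i` points, where `d i` is the degree over `W_i` of
the image of `V` in the product of `W_i` and `X i`. Then the following are equivalent: the logarithmic
Kodaira dimension of `W°` is at least `0`; it is at least `∑ m i = dim W° - 1`; the log canonical
divisor of `W°` is pseudo-effective; `W°` has a nonzero logarithmic canonical form; `W°` is not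
`A¹`-uniruled. -/
theorem result [Algebra.EssFiniteType ℂ K] (m : Fin k → ℕ)
    (F : Fin (k + 1) → IntermediateField ℂ K) [∀ i, Algebra.EssFiniteType ℂ (F i)]
    [IsFF ℂ (F (Fin.last k))] (hF : ⨆ i, F i = ⊤)
    (hm : ∀ i : Fin k, Algebra.trdeg ℂ (F i.castSucc) = m i)
    (hK : Algebra.trdeg ℂ K = (∑ i, m i + 1 : ℕ))
    (BX : ∀ i : Fin k, Place ℂ (F i.castSucc) → Prop) (B : Set (Place ℂ (F (Fin.last k))))
    (hB : B.Finite) (L : Type) [Field L] [Algebra ℂ L]
    [Algebra L K] [IsScalarTower ℂ L K] [FiniteDimensional L K]
    (BW : Place ℂ L → Prop) (hBW : IsImageBoundary BX B L BW)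
    (hX : ∀ i : Fin k, SeparatesPoints (F i.castSucc) (m i) (BX i) (2 * deg F L i.castSucc)) :
    [KodGe ℂ L (∑ i, m i + 1) BW 0, KodGe ℂ L (∑ i, m i + 1) BW (∑ i, m i),
      Psef ℂ L (∑ i, m i + 1) BW, ¬ LogGenusZero L (∑ i, m i + 1) BW,
      ¬ IsA1Uniruled ℂ L (∑ i, m i + 1) BW].TFAE := by
  choose x D hx hD using fun i : Fin k => Pool.Agent.Y172.exists_crd (hm i)
  have hb : ∀ (P : Place ℂ L) (Q : Place ℂ K) (e : ℕ), FF.Over Q P e →
      (BW P ↔ N145.SX.BdM BX B Q) := by
    intro P Q e h
    rw [hBW P Q e h.1 h.2]
    rfl
  have hs : ∀ i : Fin k, N145.SX.SepX (x i) (BX i) (2 * deg F L i.castSucc + 1) := fun i =>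
    N145.SX.sepX_of (hx i) (hD i) fun Ω _ _ _ A hA c hc =>
      hX i (D i) (N145.SX.dual_indep (hD i)) Ω A hA c hc
  have h1 := N145.SX.multi_log (L := L) hF hm hK hx hB (BX := BX) (BL := BW) hb hs
    (fun i => by
      have e : deg F L i.castSucc = _ := deg_eq F L i.castSucc
      rw [e]
      exact Nat.lt_succ_self _)
  have h2 := N145.SX.multi_zero (L := L) hF hm hK hx hB (BX := BX) (BL := BW) hb hs
    (fun i => by
      have e : deg F L i.castSucc = _ := deg_eq F L i.castSucc
      rw [e]
      refine lt_of_le_of_lt ?_ (Nat.lt_succ_self _)
      exact Nat.le_mul_of_pos_left _ two_pos)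
  tfae_have 3 ↔ 2 := h1.out 0 1
  tfae_have 3 ↔ 5 := h1.out 0 2
  tfae_have 1 ↔ 5 := by
    have h3 : ¬ KodGe ℂ L (∑ i, m i + 1) BW 0 ↔ IsA1Uniruled ℂ L (∑ i, m i + 1) BW := h2.out 1 3
    rw [← h3, not_not]
  tfae_have 4 ↔ 5 := by
    have h3 : LogGenusZero L (∑ i, m i + 1) BW ↔ IsA1Uniruled ℂ L (∑ i, m i + 1) BW := h2.out 0 3
    rw [h3]
  tfae_finish

end Pool.Agent.Results.MP_410da7_ag.OpenProductsTimesCurve
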