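import Pool.Agent.U393.LT.MainL

/-!
# `A¹`-uniruledness of the open varieties dominated by a product with an arbitrary open variety

Let `X°_0, ..., X°_{k-1}` be open varieties over `ℂ` of dimensions `n_i`, such that the logarithmic
canonical forms of `X°_i` separate fewer than `g_i` general points (`SeparatesPoints`): if
`P_1, ..., P_s` are pairwise different points with values in an algebraically closed field, `s < g_i`,
each one mapped to the generic point of `X_i`, then for each `j` there is a logarithmic canonical form
with nonzero value at `P_j` and the value zero at the other ones. For instance `X°_i` is the complement of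
a divisor with normal crossings of degree `e` in a smooth hypersurface of degree `c` in projective
space, `c + e ≥ n_i + 1 + g_i` (also `c = 1` or `e = 0`), or a curve of logarithmic gonality at least
`g_i`.

Let `Y°` be an arbitrary open variety of positive dimension, `V° = X°_0 × ... × X°_{k-1} × Y°`, and let
`V° ⇢ W°` be a dominant rational map of finite degree to an open variety `W°` which is proper in the
sense that a discrete valuation of `ℂ(V)` has a centre on `V°` if and only if its restriction to
`ℂ(W)` has a centre on `W°`: for instance any finite morphism onto a normal variety. Suppose that the map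
from `V` to `W × X_0 × ... × X_{k-1}` is generically injective. Let `W_i` be the image of `V` in
`W × X_0 × ... × X_{i-1}`, and let `d_i` be the degree of `W_{i+1}` over `W_i`.

**Theorem.** Suppose that `d_i < g_i` for all `i < k`. Then

* `W°` is `A¹`-uniruled if and only if `Y°` is `A¹`-uniruled;
* if the logarithmic Kodaira dimension of `Y°` is `-∞` then so is the one of `W°`;
* if `Y°` is `A¹`-uniruled or has a nonzero logarithmic canonical form then the following are
  equivalent: `W°` has no nonzero logarithmic canonical form; the logarithmic Kodaira dimension of `W°` is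
  `-∞`; `K_W + D_W` is not pseudo-effective; `W°` is `A¹`-uniruled.

So Q1 holds for `W°` if `Y°` is `A¹`-uniruled or has a nonzero logarithmic canonical form, for instance
for all curves, semi-abelian varieties, complements of normal crossing divisors of degree at least
`n + 1` in projective `n`-space, and the products of such varieties. In `OpenProductsTimesCurve`,
`Y°` is a curve, and the forms on `X°_i` separate `2 d_i` points. In `OpenUniruledTransfer` the
variety `X` is projective, and the condition is that `K_X - 2 ∑ (δ_i - 1) H_i` is effective; here
the `X°_i` may be open, for instance rational. (The examples are not part of the Lean proof.)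

Proof. Let `M × A¹ → W°` be dominant of finite degree, with the coordinate `t` on `A¹`, let `R` be the
function field of `M × A¹`, and let `Ω` be a Galois extension of the function field of `W` which contains
`R` and the function field of `V`. Suppose that it is known that the functions on `X_l`, `l < i`, are
constant along the lift of `d/dt` to `Ω`; then they generate with `R` the function field `R_i` of a
variety `M_i × A¹`. If a function on `X_i` is not constant along the lift of `d/dt` then `Ω` is
algebraic over the field generated by the function field of `X_i` and functions `b_1, ..., b_s` on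
`M_i`. For each logarithmic canonical form `ω` on `X°_i` the trace of `ω ∧ db_1 ∧ ... ∧ db_s` to `R_i` is a
rational form of top degree on `M_i × A¹` without poles along the divisors which are dominant over
`M_i`, with at most a logarithmic pole at infinity, so it is zero. This is a relation between the values
of `ω` at the conjugates over `R_i` of the generic point of `X_i`; their number is at most `d_i`, so
the coefficients of the relation are zero, a contradiction. Hence `V°` is covered by affine lines in the
fibres of `V ⇢ X_0 × ... × X_{k-1}`, and they give affine lines on `Y°` by taking residues with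
respect to a suitable valuation ring (`Pool/Agent/U393/LT/CutA.lean`).

For the logarithmic genus one takes the traces of the products of the forms on `X°_i` and one nonzero
form on `Y°`, and eliminates the coordinates on `X_0, ..., X_{k-1}` one after the other. Pull-backs,
products and traces of logarithmic canonical forms and the elimination are due to helper145, helper123,
helper442 and others (`Pool/Agent/N145/SX`, `Pool/Agent/R882/LTr.lean`).
-/

set_option autoImplicit false
set_option linter.overlappingInstances false

open FF Module Pool.Agent
open Pool.Agent.W602.GT (LogSec Psef)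
open Pool.Agent.W619.PL (IsA1Uniruled LogKodairaNeg)

namespace Pool.Agent.Results.MP_410da7_ag.OpenProductsTimesVariety

/-- The logarithmic canonical forms of the open variety with the function field `E`, of dimension `n`, and
the boundary places `BX`, separate fewer than `g` general points: let `x` be coordinates (a transcendence
basis), let `A` be a set of fewer than `g` embeddings of `E` into an algebraically closed field `Ω`
(points with values in `Ω` which are mapped to the generic point of the variety), and let `c σ` be
elements of `Ω` such that the sum of all `c σ * σ f` is zero for all functions `f` for which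
`f dx_1 ∧ ... ∧ dx_n` is a logarithmic canonical form. Then all `c σ` are zero. -/
def SeparatesPoints (E : Type) [Field E] [Algebra ℂ E] (n : ℕ) (BX : Place ℂ E → Prop) (g : ℕ) :
    Prop :=
  ∃ x : Fin n → E, IsTranscendenceBasis ℂ x ∧
    ∀ (Ω : Type) [Field Ω] [Algebra ℂ Ω] [IsAlgClosed Ω] (A : Finset (E →ₐ[ℂ] Ω)), A.card < g →
      ∀ c : (E →ₐ[ℂ] Ω) → Ω,
        (∀ f : E, LogSec ℂ E n 1 BX (fun D => (Matrix.of fun i j => D i (x j)).det * f) →
          ∑ σ ∈ A, c σ * σ f = 0) → ∀ σ ∈ A, c σ = 0

/-- `BY` is the set of the places of the function field `T` without centre on an open variety `Y°`,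
which is covered by the affine varieties with the coordinate rings `ℂ[A 0], ..., ℂ[A s]`. -/
def IsBoundary {T : Type} [Field T] [Algebra ℂ T] (BY : Place ℂ T → Prop) : Prop :=
  ∃ (s : ℕ) (A : Fin (s + 1) → Finset T), ∀ S : Place ℂ T, BY S ↔ ∀ j, ∃ a ∈ A j, ¬ S.Reg a

/-- The function field of the image `W_i` of `V` in `W × X_0 × ... × X_{i-1}`: here `V` and `W` are
the function fields, and `F l.castSucc`, `l < k`, is the function field of `X_l`. -/
noncomputable def Img {V : Type} [Field V] [Algebra ℂ V] {k : ℕ}
    (F : Fin (k + 1) → IntermediateField ℂ V) (W : Type) [Field W] [Algebra W V] (i : ℕ) :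
    IntermediateField W V :=
  IntermediateField.adjoin W {z | ∃ l : Fin k, l.val < i ∧ z ∈ F l.castSucc}

/-- The degree `d_i` of `W_{i+1}` over `W_i`. -/
noncomputable def deg {V : Type} [Field V] [Algebra ℂ V] {k : ℕ}
    (F : Fin (k + 1) → IntermediateField ℂ V) (W : Type) [Field W] [Algebra W V] (i : Fin k) : ℕ :=
  finrank (Img F W i) (IntermediateField.adjoin (Img F W i) (F i.castSucc : Set V))

/-- The place `Q` of the function field of the product has no centre on the product of the open
varieties with the boundaries `BX i`: it lies over a place in one of the `BX i`. -/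
def Boundary {V : Type} [Field V] [Algebra ℂ V] {k : ℕ} {F : Fin (k + 1) → IntermediateField ℂ V}
    (BX : ∀ i, Place ℂ (F i) → Prop) (Q : Place ℂ V) : Prop :=
  ∃ (i : Fin (k + 1)) (S : Place ℂ (F i)), BX i S ∧
    ∃ e : ℕ, 0 < e ∧ ∀ f : F i, Q.ord (f : V) = e * S.ord f

/-- The open variety with the function field `W`, of dimension `n`, and the boundary places `BW` has no
nonzero logarithmic canonical form. -/
def LogGenusZero (W : Type) [Field W] [Algebra ℂ W] (n : ℕ) (BW : Place ℂ W → Prop) : Prop :=
  ∀ ω : (Fin n → Derivation ℂ W W) → W, LogSec ℂ W n 1 BW ω → ∀ D, ω D = 0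

/-- **`A¹`-uniruledness of the open varieties dominated by a product with an arbitrary open variety.**
Let `V` be the function field of the product of the open varieties `X°_i`, `i < k`, of dimension `n i`,
with the function fields `F i.castSucc`, and of the open variety `Y°` of dimension `r + 1`, with the
function field `F (Fin.last k)`; the boundary places are `BX i`. Suppose that the logarithmic canonical
forms of `X°_i` separate fewer than `g i` general points. Let `W ⊆ V` be the function field of an open
variety `W°` with the boundary places `BW`, the extension being finite, such that a place of `W` is in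
`BW` if and only if the places over it are in the boundary of the product. Let `V` be generated by
`W` and the function fields of the `X_i` (i.e. `V ⇢ W × X_0 × ... × X_{k-1}` is generically
injective), and let `deg F W i < g i` for all `i < k`. Then `W°` is `A¹`-uniruled if and only if `Y°`
is; if the logarithmic Kodaira dimension of `Y°` is `-∞` then so is the one of `W°`; and if `Y°` is
`A¹`-uniruled or has a nonzero logarithmic canonical form then the following are equivalent: `W°` has
no nonzero logarithmic canonical form; the logarithmic Kodaira dimension of `W°` is `-∞`;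
`K_W + D_W` is not pseudo-effective; `W°` is `A¹`-uniruled. -/
theorem result (k : ℕ) (n g : Fin k → ℕ) (r : ℕ) (V : Type) [Field V] [Algebra ℂ V]
    [Algebra.EssFiniteType ℂ V] (F : Fin (k + 1) → IntermediateField ℂ V)
    (BX : ∀ i, Place ℂ (F i) → Prop)
    (hn : ∀ i : Fin k, Algebra.trdeg ℂ (F i.castSucc) = n i)
    (hY : Algebra.trdeg ℂ (F (Fin.last k)) = (r + 1 : ℕ)) (hF : ⨆ i, F i = ⊤)
    (hV : Algebra.trdeg ℂ V = ((∑ i, n i) + (r + 1) : ℕ))
    (hsep : ∀ i : Fin k, SeparatesPoints (F i.castSucc) (n i) (BX i.castSucc) (g i))
    (hBY : IsBoundary (BX (Fin.last k)))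
    (W : Type) [Field W] [Algebra ℂ W] [Algebra W V] [IsScalarTower ℂ W V] [FiniteDimensional W V]
    (BW : Place ℂ W → Prop)
    (hBW : ∀ (P : Place ℂ W) (Q : Place ℂ V) (e : ℕ), 0 < e →
      (∀ f : W, Q.ord (algebraMap W V f) = e * P.ord f) → (BW P ↔ Boundary BX Q))
    (hinj : IntermediateField.adjoin W (⋃ i : Fin k, (F i.castSucc : Set V)) = ⊤)
    (hdeg : ∀ i : Fin k, deg F W i < g i) :
    (IsA1Uniruled ℂ W ((∑ i, n i) + (r + 1)) BW ↔
      IsA1Uniruled ℂ (F (Fin.last k)) (r + 1) (BX (Fin.last k))) ∧
    (LogKodairaNeg ℂ (F (Fin.last k)) (r + 1) (BX (Fin.last k)) →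
      LogKodairaNeg ℂ W ((∑ i, n i) + (r + 1)) BW) ∧
    ((IsA1Uniruled ℂ (F (Fin.last k)) (r + 1) (BX (Fin.last k)) ∨
      ∃ ω : (Fin (r + 1) → Derivation ℂ (F (Fin.last k)) (F (Fin.last k))) → F (Fin.last k),
        LogSec ℂ (F (Fin.last k)) (r + 1) 1 (BX (Fin.last k)) ω ∧ ω ≠ 0) →
      [LogGenusZero W ((∑ i, n i) + (r + 1)) BW,
        LogKodairaNeg ℂ W ((∑ i, n i) + (r + 1)) BW,
        ¬ Psef ℂ W ((∑ i, n i) + (r + 1)) BW,
        IsA1Uniruled ℂ W ((∑ i, n i) + (r + 1)) BW].TFAE) := by
  obtain ⟨s, A, hA⟩ := hBY
  refine U393.LT.prodvar_log (g := g) hn (fun i => ?_) hY hF hV A (fun S => ?_) (BW := BW)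
    (fun P Q e h => ?_) hinj hdeg
  · obtain ⟨x, hx, h⟩ := hsep i
    refine ⟨x, hx, fun Ω _ _ _ A hA c hc => h Ω A hA c fun f hf => hc f fun P hP => ?_⟩
    exact ⟨hf.2.1 P hP, fun hB => hf.2.2 P hP hB⟩
  · rw [hA S]
    push Not
    rfl
  · rw [hBW P Q e h.1 h.2]
    constructor
    · rintro ⟨i, S, hS, e', he', h'⟩
      exact ⟨i, S, e', hS, he', h'⟩
    · rintro ⟨i, S, e', hS, h'⟩
      exact ⟨i, S, hS, e', h'.1, h'.2⟩

end Pool.Agent.Results.MP_410da7_ag.OpenProductsTimesVariety
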