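import Pool.Agent.U192.TF.Fin

/-!
# Open varieties dominated by the product of an open curve and an open variety over a positive one

Let `X°` be a smooth quasi-projective variety over `ℂ` of dimension `d`, with a smooth compactification
`X` and the boundary `D_X`, which has normal crossings. Let `X₁ ⇢ X` be a dominant rational map of finite
degree (for instance the identity), let `X₁°` be the open variety given by the places of `ℂ(X₁)` with
centre on `X°`, and let `U = C ∖ B` be a smooth curve, open or projective, of any genus. Let
`X₁° × U ⇢ W°` be a dominant rational map of finite degree which is proper in the sense that a prime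
divisor over `X₁° × U` has a centre on `X₁° × U` if and only if its image has a centre on `W°`: for
instance any finite morphism onto a normal variety. It need not be related to the product structure, and
it need not be the quotient by a group. Let `V` be the image of `X₁ × C` in `W × X`.

Let `T` be a finite set of rational functions on `X` such that `1` and the functions in `T` generate
the function field `ℂ(V)` as a vector space over `ℂ(W)`, and let `H` be the divisor of the poles of the
functions in `T`. In other words, the linear system in `|H|` which corresponds to `T` separates the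
points of `X` below a general point of `W`.

**Theorem.** Suppose that some multiple `m (K_X + D_X - 2 H)`, `m ≥ 1`, has a nonzero section (on all
models: see `IsSection`). Then:

1. `W°` is `A¹`-uniruled if and only if its logarithmic Kodaira dimension is `-∞`, if and only if the
   divisor `K_W + D_W` of a smooth compactification is not pseudo-effective.
2. If `W°` is not `A¹`-uniruled then its logarithmic Kodaira dimension is at least
   `κ(X, K_X + D_X - 2 H)`, in the form: if some multiple of `K_X + D_X - 2 H` has `a + 1` sections
   with algebraically independent ratios, then it is at least `a`.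
3. If `W°` is not `A¹`-uniruled then `h⁰(W, m δ (K_W + D_W)) ≥ h⁰(X, m (K_X + D_X - 2 H))` for all
   `m`, where `δ` is the degree over `W` of the image of `X₁ × C` in `W × X₁`.

In the theorems of the starting files and of the team on such `W°` (`ProductWithCurve`,
`OpenProductsTimesCurve`), the logarithmic canonical forms of `X°` separate the points of `X` below a
general point of `W`, so the logarithmic genus of `X°` is positive, and the forms on `W°` are traces. Here
the forms on `X°` are pluricanonical; their traces need not be regular.

Proof. Let `V₁` be the image of `X₁ × C` in `W × X₁`. The traces on `V₁` of the logarithmic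
differentials `φ` on `U` (times `dx_1 ... dx_d`, for coordinates `x` on `X`) are not all zero if `W°`
is not `A¹`-uniruled: the fibres of `V₁ → X₁` are then not rational curves with at most one point in
the boundary. Let `τ` be such a trace, and `θ` a section of `m (K_X + D_X - 2 H)`. Along a prime divisor
over `V₁` on which the functions of `X` are not all constant, `τ` has a zero of order at least `r - 1`,
where `r` is the ramification index over the divisor of `X`: since `τ / x_i` has at most a logarithmic
pole for a local equation `x_i` of this divisor. Along the other prime divisors over `V₁` the form `τ`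
has at most a logarithmic pole, it is regular outside of the boundary, and there these divisors are
unramified over `V`, since `V₁ → V` is a constant extension. Hence the norm to `W` of the
logarithmic `m`-canonical form `τ ^ m θ`, multiplied by the `(m deg (V₁ / V))`-th power of the
discriminant of a basis of `ℂ(V)` over `ℂ(W)` in `T`, is a logarithmic `(m δ)`-canonical form on `W°`.
-/

set_option autoImplicit false
set_option linter.overlappingInstances false
set_option maxHeartbeats 4000000
set_option synthInstance.maxHeartbeats 400000

open FF Module Pool.Agent Pool.Agent.W602.GT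
open Pool.Agent.W619.PL (IsA1Uniruled)
open Pool.Agent.W619.TW (HasIndep)

namespace Pool.Agent.Results.MP_410da7_ag.OpenProductsWithCurves

/-- The order of the poles along `v` of the functions in the finite set `T`: the multiplicity at `v`
of `H`, the smallest effective divisor with `H + (t) ≥ 0` for all `t ∈ T`, `t ≠ 0`. -/
noncomputable def poleOrder {E : Type} [Field E] [Algebra ℂ E] (T : Finset E) (v : Place ℂ E) : ℕ :=
  T.sup fun z => (-v.ord z).toNat

/-- `θ` is a section of `m (K_X + D_X - 2 H)`, where `E` is the function field of `X`, of dimension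
`d`, `H` is the divisor of the poles of the functions in `T`, and `BX` is the set of places without
centre on `X°`: an `m`-canonical form of order at least `2 m H_v` along the prime divisors `v` over
`X` with centre on `X°`, and of order at least `2 m H_v - m` along the others. -/
def IsSection {E : Type} [Field E] [Algebra ℂ E] (d m : ℕ) (BX : Place ℂ E → Prop) (T : Finset E)
    (θ : (Fin d → Derivation ℂ E E) → E) : Prop :=
  IsPluri m θ ∧ ∀ v : Place ℂ E, Divisorial d v → ∀ G : Fin d → Derivation ℂ E E,
    (∀ i, DerReg v (G i)) → θ G = 0 ∨
      (2 * (m : ℤ) * poleOrder T v ≤ v.ord (θ G) ∨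
        BX v ∧ 2 * (m : ℤ) * poleOrder T v - m ≤ v.ord (θ G))

/-- `κ(X, K_X + D_X - 2 H) ≥ a`: for some `m ≥ 1` there are `a + 1` sections of
`m (K_X + D_X - 2 H)` with algebraically independent ratios. For `a = 0`: a nonzero section. -/
def IsPositive {E : Type} [Field E] [Algebra ℂ E] (d a : ℕ) (BX : Place ℂ E → Prop)
    (T : Finset E) : Prop :=
  ∃ m : ℕ, 1 ≤ m ∧ ∃ θ : Fin (a + 1) → (Fin d → Derivation ℂ E E) → E,
    (∀ j, IsSection d m BX T (θ j)) ∧ ∃ G : Fin d → Derivation ℂ E E, θ 0 G ≠ 0 ∧
      AlgebraicIndependent ℂ fun j : Fin a => θ j.succ G / θ 0 G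

/-- `1` and the functions in `T` generate the field `L(E)` as a vector space over `L`. Here `K` is the
function field of `X₁ × C`, `E` the one of `X`, `L` the one of `W`, and so `L(E)` the one of the image
`V` of `X₁ × C` in `W × X`. -/
def Separates {K : Type} [Field K] [Algebra ℂ K] (L : Type) [Field L] [Algebra L K]
    (E : IntermediateField ℂ K) (T : Finset E) : Prop :=
  ∀ z ∈ IntermediateField.adjoin L (E : Set K),
    z ∈ Submodule.span L (insert 1 ((fun t : E => (t : K)) '' (T : Set E)))

/-- The place `Q` of the function field `K` of the product lies over a place of `E` without centre on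
`X°` or over a point in `B`: it has no centre on `X₁° × U`. -/
def Boundary {K : Type} [Field K] [Algebra ℂ K] {E C : IntermediateField ℂ K}
    (BX : Place ℂ E → Prop) (B : Set (Place ℂ C)) (Q : Place ℂ K) : Prop :=
  (∃ (P : Place ℂ E) (e : ℕ), BX P ∧ 0 < e ∧ ∀ f : E, Q.ord (f : K) = e * P.ord f) ∨
  ∃ p ∈ B, ∃ e : ℕ, 0 < e ∧ ∀ f : C, Q.ord (f : K) = e * p.ord f

/-- The set `BW` of places of the function field `L` of `W` is the boundary of the image of the
product: for all places `Q` of `K` over a place `P` of `L`, `P` is in `BW` (has no centre on `W°`) if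
and only if `Q` has no centre on `X₁° × U`. -/
def IsImageBoundary {K : Type} [Field K] [Algebra ℂ K] {E C : IntermediateField ℂ K}
    (BX : Place ℂ E → Prop) (B : Set (Place ℂ C)) (L : Type) [Field L] [Algebra ℂ L] [Algebra L K]
    (BW : Place ℂ L → Prop) : Prop :=
  ∀ (P : Place ℂ L) (Q : Place ℂ K) (e : ℕ), 0 < e →
    (∀ f : L, Q.ord (algebraMap L K f) = e * P.ord f) → (BW P ↔ Boundary BX B Q)

theorem conv {E : Type} [Field E] [Algebra ℂ E] {d m : ℕ} {BX : Place ℂ E → Prop}
    [DecidablePred BX] {T : Finset E}
    {θ : (Fin d → Derivation ℂ E E) → E} (h : IsSection d m BX T θ) :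
    ∀ v : Place ℂ E, Divisorial d v → ∀ G : Fin d → Derivation ℂ E E,
      (∀ i, DerReg v (G i)) → θ G = 0 ∨ ∀ t : E, (t = 1 ∨ t ∈ T) → t ≠ 0 →
        (if BX v then -(m : ℤ) else 0) ≤ v.ord (θ G) + 2 * m * v.ord t := by
  intro v hv G hG
  rcases h.2 v hv G hG with h1 | h1
  · exact Or.inl h1
  refine Or.inr fun t ht _ => ?_
  have h2 : -v.ord t ≤ poleOrder T v := by
    rcases ht with rfl | ht
    · rw [v.ord_one, neg_zero]
      exact Int.natCast_nonneg _
    · have h3 : (-v.ord t).toNat ≤ poleOrder T v :=
        Finset.le_sup (f := fun z => (-v.ord z).toNat) ht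
      have h4 := Int.self_le_toNat (-v.ord t)
      exact h4.trans (by exact_mod_cast h3)
  have h3 := mul_le_mul_of_nonneg_left h2 (by positivity : (0 : ℤ) ≤ 2 * m)
  have h4 : (0 : ℤ) ≤ m := Int.natCast_nonneg m
  rcases h1 with h1 | ⟨hB, h1⟩
  · split_ifs <;> linarith
  · rw [if_pos hB]
    linarith

/-- **Theorem.** Let `K` be the function field of the product of a variety with function field `E₁`, of
dimension `d`, and of a curve with function field `C`; let `E ⊆ E₁` be a subfield of the same
transcendence degree, the function field of `X`, and `L ⊆ K` the function field of a variety `W`, the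
extension being finite. Let `BX` be the boundary of `X°`, `B` a finite set of points of the curve, and
`BW` the boundary of the image `W°` of the product. Let `T ⊆ E` be a finite set of functions which
separates the points of `X` below a general point of `W`, and let some multiple of `K_X + D_X - 2 H`
have a nonzero section. Then `K_W + D_W` is pseudo-effective if and only if the logarithmic Kodaira
dimension of `W°` is not `-∞`, if and only if `W°` is not `A¹`-uniruled; and if `W°` is not
`A¹`-uniruled then its logarithmic Kodaira dimension is at least `κ(X, K_X + D_X - 2 H)`, and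
`h⁰(W, m δ (K_W + D_W)) ≥ h⁰(X, m (K_X + D_X - 2 H))` for all `m`. -/
theorem result (K : Type) [Field K] [Algebra ℂ K] [Algebra.EssFiniteType ℂ K] (d : ℕ)
    (E E₁ C : IntermediateField ℂ K) (hE : Algebra.trdeg ℂ E = d) (hE₁ : Algebra.trdeg ℂ E₁ = d)
    (hC : Algebra.trdeg ℂ C = 1) (hK : Algebra.trdeg ℂ K = (d + 1 : ℕ)) (hEE : E ≤ E₁)
    (hsup : E₁ ⊔ C = ⊤) (BX : Place ℂ E → Prop) (B : Set (Place ℂ C)) (hB : B.Finite)
    (L : Type) [Field L] [Algebra ℂ L] [Algebra L K] [IsScalarTower ℂ L K]
    [FiniteDimensional L K] (BW : Place ℂ L → Prop) (hBW : IsImageBoundary BX B L BW)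
    (T : Finset E) (hT : Separates L E T) (hpos : IsPositive d 0 BX T) :
    [Psef ℂ L (d + 1) BW, KodGe ℂ L (d + 1) BW 0, ¬ IsA1Uniruled ℂ L (d + 1) BW].TFAE ∧
    (¬ IsA1Uniruled ℂ L (d + 1) BW →
      (∀ a : ℕ, IsPositive d a BX T → KodGe ℂ L (d + 1) BW a) ∧
      ∀ m N : ℕ, HasIndep ℂ E d N (IsSection d m BX T) →
        HasIndep ℂ L (d + 1) N (LogSec ℂ L (d + 1)
          (m * finrank L (IntermediateField.adjoin L (E₁ : Set K))) BW)) := by
  classical
  have hL : Algebra.trdeg ℂ L = (d + 1 : ℕ) := Y184.NT.trdeg_below (K := K) hK
  have hessL : Algebra.EssFiniteType ℂ L := TH466.QG.ess_below (K := K)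
  have hFF : IsFF ℂ C := ⟨N999.SX.ess_any C, hC⟩
  have hset : ∀ z ∈ IntermediateField.adjoin L (E : Set K),
      z ∈ Submodule.span L {z : K | ∃ t : E, (t = 1 ∨ t ∈ T) ∧ (t : K) = z} := by
    intro z hz
    refine Submodule.span_mono ?_ (hT z hz)
    rintro w (rfl | ⟨t, ht, rfl⟩)
    · exact ⟨1, Or.inl rfl, rfl⟩
    · exact ⟨t, Or.inr ht, rfl⟩
  have h := U192.TF.main (C := C) (L := L) hEE hsup hE hE₁ hK hset (BX := BX)
    (B := B) hB (BL := BW) (fun P Q e hQ => hBW P Q e hQ.1 hQ.2)
  have hmain : ¬ IsA1Uniruled ℂ L (d + 1) BW →
      (∀ a : ℕ, IsPositive d a BX T → KodGe ℂ L (d + 1) BW a) ∧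
      ∀ m N : ℕ, HasIndep ℂ E d N (IsSection d m BX T) →
        HasIndep ℂ L (d + 1) N (LogSec ℂ L (d + 1)
          (m * finrank L (IntermediateField.adjoin L (E₁ : Set K))) BW) := by
    intro hu
    obtain ⟨h1, h2⟩ := h.resolve_left hu
    refine ⟨fun a => ?_, fun m N => ?_⟩
    · rintro ⟨m, hm, θ, hθ, G, hG, hind⟩
      exact h1 m a hm θ (fun j => (hθ j).1) (fun j => conv (hθ j)) G hG hind
    · rintro ⟨θ, hθ, hs⟩
      exact h2 m N θ (fun j => (hs j).1) (fun j => conv (hs j)) hθ
  refine ⟨?_, hmain⟩
  tfae_have 1 → 3 := fun h1 h2 => N145.PL.not_psef_of_a1 hL h2 h1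
  tfae_have 3 → 2 := fun h1 => (hmain h1).1 0 hpos
  tfae_have 2 → 1 := fun h1 => N145.PL.psef_of_kodGe' h1
  tfae_finish

end Pool.Agent.Results.MP_410da7_ag.OpenProductsWithCurves
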