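import Pool.Agent.U393.LT.CoverN
import Pool.Agent.U393.LT.DownA
import Pool.Agent.U393.LT.UpA
import Pool.Agent.U393.LT.Below
import Pool.Agent.U393.LT.NegLog

/-!
# `A¹`-uniruledness of the open varieties dominated by a family over a positive base

Let `X` be a smooth projective variety over `ℂ` of dimension `d`, let `k` morphisms from `X` to
projective spaces be given which together map `X` birationally onto its image, and let `H_i` be the
pull-back of a hyperplane under the `i`-th morphism. Let `V° ⊆ V` be an open variety with a dominant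
rational map `V ⇢ X`, and let `V° ⇢ W°` be a dominant rational map of finite degree to an open variety
`W° ⊆ W` which is proper in the sense that a discrete valuation of `ℂ(V)` has a centre on `V°` if and
only if its restriction to `ℂ(W)` has a centre on `W°`: for instance any finite morphism onto a normal
variety. Suppose that the map `V ⇢ W × X` is generically injective. Let `W_i` be the image of `V` in the
product of `W` and the first `i` projective spaces, and let `δ_i` be the degree of `W_{i+1}` over `W_i`.

**Theorem.** Suppose that some multiple `m (K_X - 2 ∑ (δ_i - 1) H_i)`, `m ≥ 1`, has a nonzero section.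
Then `W°` is `A¹`-uniruled if and only if `V°` is `A¹`-uniruled, if and only if `V°` is covered by
affine lines in the fibres of `V ⇢ X`. If moreover `V° = X × Y°` with an open variety `Y°` then

* `W°` is `A¹`-uniruled if and only if `Y°` is `A¹`-uniruled;
* the logarithmic Kodaira dimension of `W°` is `-∞` if and only if the one of `Y°` is.

So Q1 holds for `W°` if and only if it holds for `Y°`: the open variety `W°`, which may have a trivial
fundamental group and irregularity zero, is a counterexample if and only if `Y°` is one. For instance Q1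
holds for `W°` if `Y°` is a curve or (by Miyanishi, Tsunoda, Keel and McKernan, not part of the Lean
proof) a surface, and for all `Y°` which are `A¹`-uniruled or have a nonzero logarithmic pluricanonical
form. The dimension of `X` is arbitrary, and the map `X × Y° ⇢ W°` need not be compatible with the
product, and it need not be the quotient by a group. The projective case is
`MP_a58813_ag.UniruledTransfer`; for `V° = X × U` with a curve `U` the team has
`OpenProductsWithCurves`.

Proof. Let `M × A¹ → W°` be dominant, with the coordinate `t` on `A¹`. By the projective case (norms of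
the `m`-canonical form on `X`, multiplied by discriminants) the functions on `X` are constant along the
lift of `d/dt` to a Galois extension of `ℂ(W)` which contains `ℂ(V)` and `ℂ(M × A¹)`. As `V` is
generically embedded in `W × X`, the constants and `t` generate a field which contains `ℂ(V)`, and this
is the function field of a family of affine lines on `V°` in the fibres over `X`.

If `V° = X × Y°` then this family gives affine lines on `Y°` after the extension of the ground field to
`ℂ(X)`. To get affine lines on `Y°` over `ℂ` one takes residues with respect to a suitable valuation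
ring. Let `Y°` be covered by the affine varieties `Spec ℂ[A_j]`, and let `Q_j ∈ M[t]` be the common
denominator of the functions in `A_j`. The affine lines are on `Y°` if and only if the `Q_j` generate
the unit ideal; one has to take the valuation ring such that the coefficients of polynomials `R_j` with
`∑ R_j Q_j = 1` are in it. The statement on the logarithmic Kodaira dimension is the transfer theorem of
helper192 (`Pool/Agent/U192/PT/Trans.lean`).
-/

set_option autoImplicit false
set_option linter.overlappingInstances false
set_option maxHeartbeats 4000000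
set_option synthInstance.maxHeartbeats 400000

open FF Module Pool.Agent
open Pool.Agent.W602.GT (Divisorial DerReg IsPluri)
open Pool.Agent.W619.PL (IsA1Uniruled LogKodairaNeg)

namespace Pool.Agent.Results.MP_410da7_ag.OpenUniruledTransfer

/-- The order of the poles along `P` of the functions in the finite set `Y`: the multiplicity along `P`
of the pull-back of a hyperplane under the rational map with the coordinates `1` and `Y`. -/
noncomputable def poleOrder {U : Type} [Field U] [Algebra ℂ U] (Y : Finset U) (P : Place ℂ U) : ℕ :=
  Y.sup fun z => (-P.ord z).toNat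

/-- The functions on `X` as functions on `V`. -/
def onV {L : Type} [Field L] [Algebra ℂ L] {U : IntermediateField ℂ L} (Y : Finset U) : Finset L :=
  Y.map (Function.Embedding.subtype fun z => z ∈ U)

/-- The function field of the image `W_j` of `V` in the product of `W` and the first `j` projective
spaces. `K` and `L` are the function fields of `W` and `V`, and `X i` is the set of the affine
coordinates of the `i`-th rational map. -/
def Img {L : Type} [Field L] [Algebra ℂ L] {U : IntermediateField ℂ L} (K : Type) [Field K]
    [Algebra K L] {k : ℕ} (X : Fin k → Finset U) (j : ℕ) : IntermediateField K L :=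
  IntermediateField.adjoin K {z | ∃ i : Fin k, i.val < j ∧ z ∈ onV (X i)}

/-- The degree `δ i` of `W_{i + 1}` over `W_i`. -/
noncomputable def deg {L : Type} [Field L] [Algebra ℂ L] {U : IntermediateField ℂ L} (K : Type)
    [Field K] [Algebra K L] {k : ℕ} (X : Fin k → Finset U) (i : Fin k) : ℕ :=
  finrank (Img K X i) (IntermediateField.adjoin (Img K X i) (onV (X i) : Set L))

/-- `θ` is a section of `m K_X - H`, where `U` is the function field of the variety `X`, of dimension
`d`, and `H` has the multiplicity `b P` at `P`: the order of the `m`-canonical form `θ` along each prime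
divisor `P` over `X` is at least `b P`. -/
def IsSection {U : Type} [Field U] [Algebra ℂ U] (d m : ℕ) (b : Place ℂ U → ℤ)
    (θ : (Fin d → Derivation ℂ U U) → U) : Prop :=
  IsPluri m θ ∧ ∀ P : Place ℂ U, Divisorial d P → ∀ G : Fin d → Derivation ℂ U U,
    (∀ i, DerReg P (G i)) → θ G ≠ 0 → b P ≤ P.ord (θ G)

/-- The open variety with the function field `L` and the boundary places `Bd` is covered by affine
lines in the fibres of `V ⇢ X`, where `U` is the function field of `X`: there are a variety of dimension
`n - 1`, with the function field `M`, and an embedding of `L` into the field of rational functions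
`M(t)`, which maps `U` into `M`, such that no closed point of the affine line over `M` is sent to the
boundary. -/
def IsA1UniruledOver {L : Type} [Field L] [Algebra ℂ L] (U : IntermediateField ℂ L) (n : ℕ)
    (Bd : Place ℂ L → Prop) : Prop :=
  ∃ (M : Type) (_ : Field M) (_ : Algebra ℂ M) (φ : L →ₐ[ℂ] RatFunc M),
    Algebra.EssFiniteType ℂ M ∧ Algebra.trdeg ℂ M + 1 = n ∧
    (∀ z ∈ U, φ z ∈ Set.range (algebraMap M (RatFunc M))) ∧
    ∀ w : Place M (RatFunc M), w.Reg RatFunc.X → ∀ (v : Place ℂ L) (e : ℕ), 0 < e →
      (∀ f : L, w.ord (φ f) = e * v.ord f) → ¬ Bd v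

/-- `BY` is the set of the places of the function field `T` without centre on an open variety `Y°`,
which is covered by the affine varieties with the coordinate rings `ℂ[A 0], ..., ℂ[A s]`. -/
def IsBoundary {T : Type} [Field T] [Algebra ℂ T] (BY : Place ℂ T → Prop) : Prop :=
  ∃ (s : ℕ) (A : Fin (s + 1) → Finset T), ∀ S : Place ℂ T, BY S ↔ ∀ j, ∃ a ∈ A j, ¬ S.Reg a

/-- The place `Q` of the function field `L` of `X × Y` is in the boundary of `X × Y°`: it lies over a
place of the function field `T` of `Y` without centre on `Y°`. -/
def OverBoundary {L : Type} [Field L] [Algebra ℂ L] {T : IntermediateField ℂ L}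
    (BY : Place ℂ T → Prop) (Q : Place ℂ L) : Prop :=
  ∃ S : Place ℂ T, BY S ∧ ∃ e : ℕ, 0 < e ∧ ∀ f : T, Q.ord (f : L) = e * S.ord f

/-- **`A¹`-uniruledness of the images of a family over a positive base.** Let `L` be the function field
of a variety `V` of dimension `n`, and `U ⊆ L` the function field of the variety `X` of dimension `d`;
let `U` be generated by the finitely many coordinates in the sets `X i`. Let `K ⊆ L` be the function
field of a variety `W`, the extension being finite, such that `L` is generated by `K` and `U`. Let
`V°` and `W°` be open varieties with the boundaries `BV` and `BW`, which correspond to each other.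
Suppose that there is a nonzero section `θ` of `m (K_X - 2 ∑ (δ i - 1) H i)`, `m ≥ 1`. Then `W°` is
`A¹`-uniruled if and only if `V°` is covered by affine lines in the fibres of `V ⇢ X`, if and only
if `V°` is `A¹`-uniruled. If moreover `V° = X × Y°`, where `Y` has the function field `T` and the
dimension `r + 1`, then `W°` is `A¹`-uniruled if and only if `Y°` is `A¹`-uniruled, and the
logarithmic Kodaira dimension of `W°` is `-∞` if and only if the one of `Y°` is. -/
theorem result {L : Type} [Field L] [Algebra ℂ L] [Algebra.EssFiniteType ℂ L]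
    (U : IntermediateField ℂ L) {d n m k : ℕ} (hU : Algebra.trdeg ℂ U = d)
    (hL : Algebra.trdeg ℂ L = n) (X : Fin k → Finset U)
    (hX : IntermediateField.adjoin ℂ (⋃ i, (X i : Set U)) = ⊤)
    (K : Type) [Field K] [Algebra ℂ K] [Algebra K L] [IsScalarTower ℂ K L] [FiniteDimensional K L]
    (hinj : IntermediateField.adjoin K (U : Set L) = ⊤)
    (BV : Place ℂ L → Prop) (BW : Place ℂ K → Prop)
    (hBW : ∀ (P : Place ℂ K) (Q : Place ℂ L) (e : ℕ), 0 < e →
      (∀ f : K, Q.ord (algebraMap K L f) = e * P.ord f) → (BW P ↔ BV Q))
    (hm : 1 ≤ m) (θ : (Fin d → Derivation ℂ U U) → U) (hθ0 : θ ≠ 0)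
    (hθ : IsSection d m
      (fun P => ∑ i, 2 * m * ((deg K X i : ℤ) - 1) * poleOrder (X i) P) θ) :
    (IsA1Uniruled ℂ K n BW ↔ IsA1UniruledOver U n BV) ∧
    (IsA1Uniruled ℂ L n BV ↔ IsA1UniruledOver U n BV) ∧
    ∀ (T : IntermediateField ℂ L) (r : ℕ) (BY : Place ℂ T → Prop), U ⊔ T = ⊤ →
      Algebra.trdeg ℂ T = (r + 1 : ℕ) → n = d + (r + 1) → IsBoundary BY →
      (∀ Q : Place ℂ L, BV Q ↔ OverBoundary BY Q) →
      (IsA1Uniruled ℂ K n BW ↔ IsA1Uniruled ℂ T (r + 1) BY) ∧
      (LogKodairaNeg ℂ K n BW ↔ LogKodairaNeg ℂ T (r + 1) BY) := by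
  have hUe : Algebra.EssFiniteType ℂ U := Pool.Agent.N999.SX.ess_any U
  have hKe : Algebra.EssFiniteType ℂ K := Pool.Agent.TH466.QG.ess_below (K := L)
  have hK : Algebra.trdeg ℂ K = n := Pool.Agent.Y184.NT.trdeg_below (K := L) hL
  have hθ' : ∀ P : Place ℂ U, Divisorial d P → ∀ G : Fin d → Derivation ℂ U U,
      (∀ i, DerReg P (G i)) → θ G = 0 ∨
      ∑ i, 2 * (m : ℤ) * ((U192.NM.dg K (U192.PB.up U X) i : ℤ) - 1) * U192.NM.pol (X i) P ≤
        P.ord (θ G) := by
    intro P hP G hG
    by_cases h0 : θ G = 0
    · exact Or.inl h0
    · exact Or.inr (hθ.2 P hP G hG h0)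
  have hB : ∀ (P : Place ℂ K) (Q : Place ℂ L) (e : ℕ), Over Q P e → (BW P ↔ BV Q) :=
    fun P Q e h => hBW P Q e h.1 h.2
  have hBV : ∀ Q : Place ℂ L, (∃ (P : Place ℂ K) (e : ℕ), Over Q P e ∧ BW P) ↔ BV Q := by
    intro Q
    constructor
    · rintro ⟨P, e, h, hP⟩
      exact (hB P Q e h).1 hP
    · intro h
      obtain ⟨P, e, h1⟩ := Pool.Agent.Y172.exists_below (K := K) Q
      exact ⟨P, e, h1, (hB P Q e h1).2 h⟩
  have h1' : IsA1Uniruled ℂ K n BW → U393.LT.A1Over U n BV := fun h => by
    have h1 := U393.LT.cover_a1n U hinj X hX hU hK hm hθ.1 hθ0 hθ' h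
    have h2 : (fun Q : Place ℂ L => ∃ (P : Place ℂ K) (e : ℕ), Over Q P e ∧ BW P) = BV :=
      funext fun Q => propext (hBV Q)
    rwa [h2] at h1
  have h1 : IsA1Uniruled ℂ K n BW → IsA1UniruledOver U n BV := h1'
  have h2' : U393.LT.A1Over U n BV → IsA1Uniruled ℂ L n BV := fun h => h.uniruled
  have h2 : IsA1UniruledOver U n BV → IsA1Uniruled ℂ L n BV := h2'
  have h3 : IsA1Uniruled ℂ L n BV → IsA1Uniruled ℂ K n BW := fun h =>
    U393.LT.a1_below (fun P Q e h hP => (hB P Q e h).1 hP) h
  refine ⟨⟨h1, fun h => h3 (h2 h)⟩, ⟨fun h => h1 (h3 h), h2⟩, ?_⟩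
  rintro T r BY hUT hT rfl ⟨s, A, hA⟩ hBY
  have hTe : Algebra.EssFiniteType ℂ T := Pool.Agent.N999.SX.ess_any T
  have hover : ∀ Q : Place ℂ L, BV Q ↔ ∃ (S : Place ℂ T) (e : ℕ), Over Q S e ∧ BY S := by
    intro Q
    rw [hBY]
    constructor
    · rintro ⟨S, hS, e, he, h⟩
      exact ⟨S, e, ⟨he, h⟩, hS⟩
    · rintro ⟨S, e, h, hS⟩
      exact ⟨S, hS, e, h.1, h.2⟩
  refine ⟨⟨fun h => ?_, fun h => ?_⟩, ?_⟩
  · refine U393.LT.product_downA U T hUT hU hT hL A (BY := BY) (fun S => ?_) (Bd := BV)
      (fun Q S e h hS => (hover Q).2 ⟨S, e, h, hS⟩) (h1' h)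
    rw [hA S]
    push Not
    rfl
  · exact h3 (h2' (U393.LT.prod_a1 U T hUT hU hT hL (fun Q hQ => (hover Q).1 hQ) h))
  · rw [U393.LT.logneg_iff hK, U393.LT.logneg_iff hT, not_iff_not]
    exact (U192.PT.nonvan_transfer (K := K) (U := U) (T := T) hm hUT hU hT hL hinj X hX
      (δ := U393.LT.ind BW) (U393.LT.ind_nonneg BW) (δV := U393.LT.ind BV) (U393.LT.pull_ind hB)
      (δT := U393.LT.ind BY) (U393.LT.ind_nonneg BY) (fun P _ => U393.LT.ind_le BY P)
      (U393.LT.prod_ind U T hover)
      (U393.LT.ge_ind U T fun P Q e h => (hB P Q e h).trans (hover Q)) (α := θ)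
      ⟨hθ.1, fun P hP G hG => by
        by_cases h0 : θ G = 0
        · exact Or.inl h0
        · refine Or.inr ⟨1, Finset.mem_singleton_self _, one_ne_zero, ?_⟩
          rw [P.ord_one, add_zero]
          exact hθ.2 P hP G hG h0⟩ hθ0).2

end Pool.Agent.Results.MP_410da7_ag.OpenUniruledTransfer
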